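import Pool.Agent.H688.Dope.Conj

/-!
# Triples `(0, 1, λ)` with `λ`, `1 - λ` or `λ / (λ - 1)` a conjugate of a positive real radical

If `λ` (or `1 - λ`, or `λ / (λ - 1)`) is conjugate over `ℚ` to a positive real number with a
rational power, and `(0, 1, λ) ∼ (0, 1, λ')`, then `λ` and `λ'` are algebraic and conjugate.
-/

set_option autoImplicit false

namespace Pool.Agent.Results.MP_6d09f2_co.RadicalTriples

open Polynomial Pool.Agent.H688.Dope

theorem triple_injective {x : ℂ} (h0 : x ≠ 0) (h1 : x ≠ 1) :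
    Function.Injective (![0, 1, x] : Fin 3 → ℂ) := by
  intro i j h
  fin_cases i <;> fin_cases j <;> simp_all [eq_comm]

theorem result (lam lam' : ℂ) (h0 : lam ≠ 0) (h1 : lam ≠ 1) (h0' : lam' ≠ 0) (h1' : lam' ≠ 1)
    (heq : DopeEquiv ![0, 1, lam] ![0, 1, lam'])
    (s : ℝ) (hs : 0 < s) (a : ℕ) (ha : 0 < a) (r : ℚ) (hr : s ^ a = (r : ℝ))
    (hconj : minpoly ℚ lam = minpoly ℚ (s : ℂ) ∨ minpoly ℚ (1 - lam) = minpoly ℚ (s : ℂ) ∨
      minpoly ℚ (lam / (lam - 1)) = minpoly ℚ (s : ℂ)) :
    IsAlgebraic ℚ lam ∧ IsAlgebraic ℚ lam' ∧ minpoly ℚ lam' = minpoly ℚ lam := by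
  have hi := triple_injective h0 h1
  have hi' := triple_injective h0' h1'
  have hs1 : lam - 1 ≠ 0 := sub_ne_zero.2 h1
  have hs1' : lam' - 1 ≠ 0 := sub_ne_zero.2 h1'
  rcases hconj with hc | hc | hc
  · obtain ⟨e1, e2, e3⟩ := irreducible_of_radical hs ha hr hc (t' := lam') (by
      intro b hb ρ hρ h
      have := ratio_transfer heq hi hi' (i := 0) (j := 2) (k := 1) (by decide) (by decide) hb hρ
        (by simpa using h)
      simpa using this)
    exact ⟨e1.isAlgebraic, e2.isAlgebraic, e3⟩
  · obtain ⟨e1, e2, e3⟩ := irreducible_of_radical hs ha hr hc (t' := 1 - lam') (by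
      intro b hb ρ hρ h
      have h2 : (1 - lam) ^ b = (ρ : ℂ) := h
      have := ratio_transfer heq hi hi' (i := 1) (j := 2) (k := 0) (by decide) (by decide) hb hρ
        (by
          have e : (lam - 1) ^ b = (-1) ^ b * (1 - lam) ^ b := by rw [← mul_pow]; ring
          simp [e, h2, mul_comm])
      have e : (lam' - 1) ^ b = (-1) ^ b * (1 - lam') ^ b := by rw [← mul_pow]; ring
      simp only [Matrix.cons_val_zero, Matrix.cons_val_one, Matrix.cons_val] at this
      rw [e, zero_sub, mul_comm (ρ : ℂ)] at this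
      exact mul_left_cancel₀ (pow_ne_zero b (by norm_num)) this)
    have h3 := (conj_map e2 e3).1
    have e1' : IsIntegral ℚ lam := by
      have := (isIntegral_one (R := ℚ) (B := ℂ)).sub e1
      simpa using this
    have e2' : IsIntegral ℚ lam' := by
      have := (isIntegral_one (R := ℚ) (B := ℂ)).sub e2
      simpa using this
    refine ⟨e1'.isAlgebraic, e2'.isAlgebraic, ?_⟩
    simpa using h3
  · obtain ⟨e1, e2, e3⟩ := irreducible_of_radical hs ha hr hc (t' := lam' / (lam' - 1)) (by
      intro b hb ρ hρ h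
      have := ratio_transfer heq hi hi' (i := 2) (j := 0) (k := 1) (by decide) (by decide) hb hρ
        (by
          simp only [Matrix.cons_val_zero, Matrix.cons_val_one, Matrix.cons_val]
          rw [div_pow, div_eq_iff (pow_ne_zero b hs1)] at h
          have e : (0 - lam) ^ b = (-1) ^ b * lam ^ b := by rw [← mul_pow]; ring
          have e' : (1 - lam) ^ b = (-1) ^ b * (lam - 1) ^ b := by rw [← mul_pow]; ring
          rw [e, e', h]; ring)
      simp only [Matrix.cons_val_zero, Matrix.cons_val_one, Matrix.cons_val] at this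
      have e : (0 - lam') ^ b = (-1) ^ b * lam' ^ b := by rw [← mul_pow]; ring
      have e' : (1 - lam') ^ b = (-1) ^ b * (lam' - 1) ^ b := by rw [← mul_pow]; ring
      rw [e, e'] at this
      rw [div_pow, div_eq_iff (pow_ne_zero b hs1')]
      apply mul_left_cancel₀ (pow_ne_zero b (show (-1 : ℂ) ≠ 0 by norm_num))
      rw [this]; ring)
    have h3 := (conj_map e2 e3).2
    have inv : ∀ x : ℂ, x - 1 ≠ 0 → x / (x - 1) / (x / (x - 1) - 1) = x := by
      intro x hx
      have : x / (x - 1) - 1 = 1 / (x - 1) := by field_simp; ring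
      rw [this]; field_simp
    have hal : ∀ x : ℂ, x - 1 ≠ 0 → IsIntegral ℚ (x / (x - 1)) → IsIntegral ℚ x := by
      intro x hx h
      have h4 : IsIntegral ℚ (x / (x - 1) - 1) := h.sub isIntegral_one
      have h5 := h.mul h4.inv
      rw [← div_eq_mul_inv, inv x hx] at h5
      exact h5
    rw [inv _ hs1, inv _ hs1'] at h3
    exact ⟨(hal _ hs1 e1).isAlgebraic, (hal _ hs1' e2).isAlgebraic, h3⟩

end Pool.Agent.Results.MP_6d09f2_co.RadicalTriples
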