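import Pool.Agent.H688.Dope.Pell

/-!
# Triples `(0, 1, λ)` with `λ` a real quadratic irrational

If `λ` is a real quadratic irrational and `(0, 1, λ) ∼ (0, 1, λ')`, then `λ'` is algebraic with the
same minimal polynomial as `λ`.
-/

set_option autoImplicit false

namespace Pool.Agent.Results.MP_6d09f2_co.RealQuadratic

open Polynomial Pool.Agent.H688.Dope

theorem triple_injective {x : ℂ} (h0 : x ≠ 0) (h1 : x ≠ 1) :
    Function.Injective (![0, 1, x] : Fin 3 → ℂ) := by
  intro i j h
  fin_cases i <;> fin_cases j <;> simp_all [eq_comm]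

/-- The quadratic relation passes from `λ` to `λ'`. -/
theorem relation {lam lam' : ℂ} (h0 : lam ≠ 0) (h1 : lam ≠ 1) (h0' : lam' ≠ 0) (h1' : lam' ≠ 1)
    (heq : DopeEquiv ![0, 1, lam] ![0, 1, lam']) {T N : ℚ} (hD0 : 0 < T ^ 2 - 4 * N)
    (hD : ¬ IsSquare (T ^ 2 - 4 * N)) (hrel : lam ^ 2 - (T : ℂ) * lam + (N : ℂ) = 0) :
    lam' ^ 2 - (T : ℂ) * lam' + (N : ℂ) = 0 := by
  have hi := triple_injective h0 h1
  have hi' := triple_injective h0' h1'
  have hN0 : N ≠ 0 := by
    rintro rfl
    exact hD ⟨T, by ring⟩
  have hF0 : 1 - T + N ≠ 0 := by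
    intro h
    apply hD
    refine ⟨T - 2, ?_⟩
    have : N = T - 1 := by linarith
    rw [this]; ring
  have hNC : (N : ℂ) ≠ 0 := by exact_mod_cast hN0
  have hFC : (1 - T + N : ℂ) ≠ 0 := by exact_mod_cast hF0
  rcases lt_or_gt_of_ne hN0 with hN | hN
  · rcases lt_or_gt_of_ne hF0 with hF | hF
    · -- roots in (-∞, 0) and (1, ∞)
      have g1 : 0 < (2 * N - T) / (1 - T + N) := div_pos_of_neg_of_neg (by linarith) hF
      have g2 : 0 < N / (1 - T + N) := div_pos_of_neg_of_neg hN hF
      have gd : ((2 * N - T) / (1 - T + N)) ^ 2 - 4 * (N / (1 - T + N)) =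
          (T ^ 2 - 4 * N) / (1 - T + N) ^ 2 := by field_simp; ring
      have hF2 : 0 < (1 - T + N) ^ 2 := by positivity
      have g3 : 0 < ((2 * N - T) / (1 - T + N)) ^ 2 - 4 * (N / (1 - T + N)) := by
        rw [gd]; positivity
      have g4 : ¬ IsSquare (((2 * N - T) / (1 - T + N)) ^ 2 - 4 * (N / (1 - T + N))) := by
        rw [gd]
        rintro ⟨s, hs⟩
        apply hD
        refine ⟨s * (1 - T + N), ?_⟩
        rw [div_eq_iff hF2.ne'] at hs
        rw [hs]; ring
      have g5 : 1 - (2 * N - T) / (1 - T + N) + N / (1 - T + N) ≤ 0 := by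
        have : 1 - (2 * N - T) / (1 - T + N) + N / (1 - T + N) = 1 / (1 - T + N) := by
          field_simp; ring
        rw [this]
        exact (one_div_neg.2 hF).le
      have := quad_transfer heq hi hi' (i := 2) (j := 1) (k := 0) (by decide) (by decide)
        g1 g2 g3 g4 (Or.inr g5) (by
          simp only [Matrix.cons_val_zero, Matrix.cons_val_one, Matrix.cons_val]
          push_cast
          field_simp
          linear_combination hrel)
      simp only [Matrix.cons_val_zero, Matrix.cons_val_one, Matrix.cons_val] at this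
      push_cast at this
      field_simp at this
      linear_combination this
    · -- roots in (-∞, 0) and (0, 1)
      have := quad_transfer heq hi hi' (i := 1) (j := 0) (k := 2) (by decide) (by decide)
        (T := 2 - T) (N := 1 - T + N) (by linarith) hF
        (by convert hD0 using 1; ring) (by convert hD using 2; ring)
        (Or.inr (by linarith)) (by
          simp only [Matrix.cons_val_zero, Matrix.cons_val_one, Matrix.cons_val]
          push_cast
          linear_combination hrel)
      simp only [Matrix.cons_val_zero, Matrix.cons_val_one, Matrix.cons_val] at this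
      push_cast at this
      linear_combination this
  · rcases lt_trichotomy T 0 with hT | hT | hT
    · -- both roots negative
      have := quad_transfer heq hi hi' (i := 1) (j := 0) (k := 2) (by decide) (by decide)
        (T := 2 - T) (N := 1 - T + N) (by linarith) (by linarith)
        (by convert hD0 using 1; ring) (by convert hD using 2; ring)
        (Or.inl (by linarith)) (by
          simp only [Matrix.cons_val_zero, Matrix.cons_val_one, Matrix.cons_val]
          push_cast
          linear_combination hrel)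
      simp only [Matrix.cons_val_zero, Matrix.cons_val_one, Matrix.cons_val] at this
      push_cast at this
      linear_combination this
    · exfalso
      rw [hT] at hD0
      linarith
    · by_cases hbig : 2 ≤ T ∨ 1 - T + N ≤ 0
      · have := quad_transfer heq hi hi' (i := 0) (j := 1) (k := 2) (by decide) (by decide)
          hT hN hD0 hD hbig (by
            simp only [Matrix.cons_val_zero, Matrix.cons_val_one, Matrix.cons_val]
            linear_combination hrel)
        simp only [Matrix.cons_val_zero, Matrix.cons_val_one, Matrix.cons_val] at this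
        linear_combination this
      · -- both roots in (0, 1)
        have hT2 : T < 2 := by
          by_contra h
          exact hbig (Or.inl (not_lt.1 h))
        have g1 : 0 < T / N := by positivity
        have g2 : 0 < 1 / N := by positivity
        have gd : (T / N) ^ 2 - 4 * (1 / N) = (T ^ 2 - 4 * N) / N ^ 2 := by field_simp
        have g3 : 0 < (T / N) ^ 2 - 4 * (1 / N) := by rw [gd]; positivity
        have g4 : ¬ IsSquare ((T / N) ^ 2 - 4 * (1 / N)) := by
          rw [gd]
          rintro ⟨s, hs⟩
          apply hD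
          refine ⟨s * N, ?_⟩
          rw [div_eq_iff (by positivity)] at hs
          rw [hs]; ring
        have g5 : 2 ≤ T / N := by
          rw [le_div_iff₀ hN]
          nlinarith
        have := quad_transfer heq hi hi' (i := 0) (j := 2) (k := 1) (by decide) (by decide)
          g1 g2 g3 g4 (Or.inl g5) (by
            simp only [Matrix.cons_val_zero, Matrix.cons_val_one, Matrix.cons_val]
            push_cast
            field_simp
            linear_combination hrel)
        simp only [Matrix.cons_val_zero, Matrix.cons_val_one, Matrix.cons_val] at this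
        push_cast at this
        field_simp at this
        linear_combination this

theorem result (lam : ℝ) (hdeg : (minpoly ℚ (lam : ℂ)).natDegree = 2) (lam' : ℂ)
    (h0' : lam' ≠ 0) (h1' : lam' ≠ 1) (heq : DopeEquiv ![0, 1, (lam : ℂ)] ![0, 1, lam']) :
    IsAlgebraic ℚ lam' ∧ minpoly ℚ lam' = minpoly ℚ (lam : ℂ) := by
  have hint : IsIntegral ℚ (lam : ℂ) := by
    by_contra h
    rw [minpoly.eq_zero h, natDegree_zero] at hdeg
    omega
  set f := minpoly ℚ (lam : ℂ) with hf
  have hmonic : f.Monic := minpoly.monic hint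
  have hirr : Irreducible f := minpoly.irreducible hint
  have hfeq : f = X ^ 2 + C (f.coeff 1) * X + C (f.coeff 0) := by
    have h1 := f.as_sum_range
    rw [hdeg] at h1
    have h2 : f.coeff 2 = 1 := by
      have := hmonic.coeff_natDegree
      rwa [hdeg] at this
    conv_lhs => rw [h1]
    simp only [Finset.sum_range_succ, Finset.sum_range_zero, zero_add, h2]
    simp only [← C_mul_X_pow_eq_monomial, pow_zero, mul_one, pow_one, C_1, one_mul]
    ring
  have haev : ∀ z : ℂ, aeval z f = z ^ 2 - ((-f.coeff 1 : ℚ) : ℂ) * z + ((f.coeff 0 : ℚ) : ℂ) := by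
    intro z
    conv_lhs => rw [hfeq]
    simp
  have hrel : (lam : ℂ) ^ 2 - ((-f.coeff 1 : ℚ) : ℂ) * lam + ((f.coeff 0 : ℚ) : ℂ) = 0 := by
    rw [← haev]; exact minpoly.aeval ℚ (lam : ℂ)
  have hrat : ∀ q : ℚ, (lam : ℂ) ≠ (q : ℂ) := by
    intro q hq
    rw [hf, hq] at hdeg
    have h2 : minpoly ℚ ((q : ℚ) : ℂ) = X - C q := by
      have := minpoly.eq_X_sub_C ℂ q
      simpa using this
    rw [h2, natDegree_X_sub_C] at hdeg
    omega
  have hrelR : lam ^ 2 - ((-f.coeff 1 : ℚ) : ℝ) * lam + ((f.coeff 0 : ℚ) : ℝ) = 0 := by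
    have h2 : (((lam ^ 2 - ((-f.coeff 1 : ℚ) : ℝ) * lam + ((f.coeff 0 : ℚ) : ℝ) : ℝ)) : ℂ) = 0 := by
      push_cast
      push_cast at hrel
      exact hrel
    exact_mod_cast h2
  set T : ℚ := -f.coeff 1 with hT
  set N : ℚ := f.coeff 0 with hN
  have hsq : (2 * lam - (T : ℝ)) ^ 2 = ((T ^ 2 - 4 * N : ℚ) : ℝ) := by
    push_cast
    linear_combination 4 * hrelR
  have hD : ¬ IsSquare (T ^ 2 - 4 * N) := by
    rintro ⟨s, hs⟩
    rw [hs] at hsq
    have h2 : (2 * lam - (T : ℝ)) ^ 2 = (s : ℝ) ^ 2 := by
      rw [hsq]; push_cast; ring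
    rcases sq_eq_sq_iff_eq_or_eq_neg.1 h2 with h3 | h3
    · apply hrat ((T + s) / 2)
      have : lam = (((T + s) / 2 : ℚ) : ℝ) := by push_cast; linarith
      rw [this]; push_cast; ring
    · apply hrat ((T - s) / 2)
      have : lam = (((T - s) / 2 : ℚ) : ℝ) := by push_cast; linarith
      rw [this]; push_cast; ring
  have hD0 : 0 < T ^ 2 - 4 * N := by
    have h2 : (0 : ℝ) ≤ ((T ^ 2 - 4 * N : ℚ) : ℝ) := by rw [← hsq]; positivity
    have h3 : 0 ≤ T ^ 2 - 4 * N := by exact_mod_cast h2
    rcases h3.lt_or_eq with h4 | h4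
    · exact h4
    · exact absurd ⟨0, by rw [← h4]; ring⟩ hD
  have hr := relation (lam := (lam : ℂ)) (lam' := lam') (by simpa using hrat 0)
    (by simpa using hrat 1) h0' h1' heq hD0 hD hrel
  have hz : aeval lam' f = 0 := by rw [haev]; exact hr
  refine ⟨⟨f, hmonic.ne_zero, hz⟩, ?_⟩
  exact (minpoly.eq_of_irreducible_of_monic hirr hz hmonic).symm

end Pool.Agent.Results.MP_6d09f2_co.RealQuadratic
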